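import Pool.Agent.H635R2.Ext

/-!
# ZF does not prove that subgroups of amenable groups are amenable

The language `LSet` of set theory, the class `Zermelo`, and the notions `Mem`, `El`, `IsOrdPair`
and `IsOpGraph` of a structure for it are from `Pool.Agent.Helper672.SIK.Plain`. The class `ZF`
and the statement `SubgroupsAmenable` that, in the model, every subgroup of an amenable group is
amenable are from `Pool.Agent.H635R2.Statement`.

The proof takes a countable elementary substructure `M₀` of the given model of ZF (Loewenheim and
Skolem) and builds a symmetric extension `N` of it (names, forcing relation and hereditary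
symmetry are all defined inside `M₀`; the generic filter exists since `M₀` is countable). In `N`
there is a group `G` of exponent two, indexed externally by the product of two copies of the group
`K` of finite sets of natural numbers of `M₀`, in which every subset contains all or none of the
elements outside some small subgroup, so that `G` has a two valued invariant measure. The first
copy `H` of `K` has generic partitions indexed by the elements of `G`, whose symmetries exclude an
invariant measure on `H`.
-/

namespace Pool.Agent.Results.MP_52363e_lc.SubgroupsNotAmenable

open Pool.Agent.Helper672.Plain (LSet Mem)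
open Pool.Agent.H635Amen (ZF SubgroupsAmenable)

universe u

/-- If ZF has a model `M`, then ZF together with the negation of the statement that every subgroup
of an amenable group is amenable has a model `N`. More exactly, `N` can be chosen as an end
extension of an elementary substructure `M₀` of `M` (of `M` itself, if `M` is countable): there is
an embedding `i` of `M₀` onto a transitive part of `N`. So for example the natural numbers of `N`
are those of `M₀`, and `N` satisfies the same sentences of arithmetic as `M`. -/
theorem result (M : Type u) [LSet.Structure M] (hM : ZF M) :
    ∃ (M₀ : LSet.ElementarySubstructure M) (N : Type u) (_ : LSet.Structure N) (i : M₀ → N),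
      ZF N ∧ ¬ SubgroupsAmenable N ∧ (Countable M → M₀ = ⊤) ∧ Function.Injective i ∧
        (∀ x y, Mem (i x) (i y) ↔ Mem x y) ∧ ∀ y z, Mem z (i y) → ∃ x, i x = z := by
  have h : ∃ M₀ : LSet.ElementarySubstructure M, Countable M₀ ∧ ZF M₀ ∧
      (Countable M → M₀ = ⊤) := by
    by_cases h : Countable M
    · exact ⟨⊤, inferInstance, Pool.Agent.Helper672.ZFA.H635.zf_substructure ⊤, fun _ => rfl⟩
    · obtain ⟨M₀, h1, h2⟩ := Pool.Agent.Helper672.ZFA.H635.exists_countable_sub M hM
      exact ⟨M₀, h1, h2, fun h' => absurd h' h⟩
  obtain ⟨M₀, h1, h2, h3⟩ := h
  obtain ⟨N, iN, h4, h5, i, h6, h7, h8⟩ :=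
    Pool.Agent.Helper672.ZFA.H635.conclusion_zf M₀ h2
  exact ⟨M₀, N, iN, i, h4, h5, h3, h6, h7, h8⟩

end Pool.Agent.Results.MP_52363e_lc.SubgroupsNotAmenable
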